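import Pool.Agent.Q63.TC.NUB

/-!
# Project TC (helper130): job `IMP` (element of almost minimal norm)
-/

set_option autoImplicit false

namespace Pool.Agent.Q63.TC

open MeasureTheory Set Metric Filter Topology
open scoped ComplexConjugate
open Pool.Agent.H352R3.SA (Den pot LK Gam pot_integrable pot_continuous pot_zero pot_tendsto
  pot_bound pot_sq anti)
open Pool.Agent.Q130.TC

section

/-- the potential of a real density -/
noncomputable def rp (g : ℂ → ℝ) (z : ℂ) : ℂ := pot (fun w => (g w : ℂ)) z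

theorem cR {g : ℂ → ℝ} (hg : Den g) : Continuous fun w => (g w : ℂ) :=
  Complex.continuous_ofReal.comp hg.cont

theorem sR {g : ℂ → ℝ} (hg : Den g) : HasCompactSupport fun w => (g w : ℂ) :=
  hg.supp.comp_left (g := fun x : ℝ => (x : ℂ)) Complex.ofReal_zero

theorem rp_cont {g : ℂ → ℝ} (hg : Den g) : Continuous (rp g) := pot_continuous (cR hg) (sR hg)

/-- integrability against a density -/
theorem intd {h : ℂ → ℝ} (hh : Den h) {F : ℂ → ℝ} (hF : Continuous F) :
    Integrable fun z => F z * h z :=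
  (hF.mul hh.cont).integrable_of_hasCompactSupport hh.supp.mul_left

/-- the energy -/
noncomputable def JJ (h g : ℂ → ℝ) : ℝ := ∫ z, ‖rp g z‖ ^ 2 * h z

theorem JJ_nonneg {h : ℂ → ℝ} (hh : Den h) (g : ℂ → ℝ) : 0 ≤ JJ h g :=
  integral_nonneg fun z => mul_nonneg (sq_nonneg _) (hh.nonneg z)

theorem conv {g₀ g : ℂ → ℝ} (h₀ : Den g₀) (hg : Den g) {s : ℝ} (hs : 0 ≤ s) (hs1 : s ≤ 1) :
    Den (fun z => (1 - s) * g₀ z + s * g z) where
  cont := (continuous_const.mul h₀.cont).add (continuous_const.mul hg.cont)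
  supp := h₀.supp.mul_left.add hg.supp.mul_left
  nonneg z := add_nonneg (mul_nonneg (by linarith) (h₀.nonneg z)) (mul_nonneg hs (hg.nonneg z))

theorem rp_conv {g₀ g : ℂ → ℝ} (h₀ : Den g₀) (hg : Den g) (s : ℝ) (z : ℂ) :
    rp (fun z => (1 - s) * g₀ z + s * g z) z = rp g₀ z + s * (rp g z - rp g₀ z) := by
  unfold rp
  have e : (fun w => (((1 - s) * g₀ w + s * g w : ℝ) : ℂ)) =
      fun w => ((1 - s : ℝ) : ℂ) * (g₀ w : ℂ) + (s : ℂ) * (g w : ℂ) := by
    funext w
    push_cast
    ring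
  rw [e, pot_add (φ := fun w => ((1 - s : ℝ) : ℂ) * (g₀ w : ℂ)) (ψ := fun w => (s : ℂ) * (g w : ℂ))
    (continuous_const.mul (cR h₀)) (sR h₀).mul_left (continuous_const.mul (cR hg)) (sR hg).mul_left,
    pot_const_mul, pot_const_mul]
  push_cast
  ring

theorem norm_expand (a d : ℂ) (s : ℝ) :
    ‖a + s * d‖ ^ 2 = ‖a‖ ^ 2 + 2 * s * (d * conj a).re + s ^ 2 * ‖d‖ ^ 2 := by
  rw [← Complex.normSq_eq_norm_sq, ← Complex.normSq_eq_norm_sq, ← Complex.normSq_eq_norm_sq]
  simp only [Complex.normSq_apply, Complex.add_re, Complex.add_im, Complex.mul_re, Complex.mul_im,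
    Complex.ofReal_re, Complex.ofReal_im, Complex.conj_re, Complex.conj_im]
  ring

/-- first variation -/
theorem variation {h g₀ g : ℂ → ℝ} (hh : Den h) (h₀ : Den g₀) (hg : Den g) {s B : ℝ}
    (hB : ∫ z, ‖rp g z - rp g₀ z‖ ^ 2 * h z ≤ B) :
    JJ h (fun z => (1 - s) * g₀ z + s * g z) ≤
      JJ h g₀ + 2 * s * ((∫ z, (rp g z * conj (rp g₀ z)).re * h z) - JJ h g₀) + s ^ 2 * B := by
  have c0 := rp_cont h₀
  have c1 := rp_cont hg
  have cc : Continuous fun z => conj (rp g₀ z) := Complex.continuous_conj.comp c0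
  have i1 : Integrable fun z => ‖rp g₀ z‖ ^ 2 * h z := intd hh (c0.norm.pow 2)
  have i2 : Integrable fun z => (rp g z * conj (rp g₀ z)).re * h z :=
    intd hh (Complex.continuous_re.comp (c1.mul cc))
  have i3 : Integrable fun z => ‖rp g z - rp g₀ z‖ ^ 2 * h z := intd hh ((c1.sub c0).norm.pow 2)
  have e : JJ h (fun z => (1 - s) * g₀ z + s * g z) =
      JJ h g₀ + 2 * s * ((∫ z, (rp g z * conj (rp g₀ z)).re * h z) - JJ h g₀) +
        s ^ 2 * ∫ z, ‖rp g z - rp g₀ z‖ ^ 2 * h z := by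
    unfold JJ
    have i4 : Integrable fun z => 2 * s * ((rp g z * conj (rp g₀ z)).re * h z -
        ‖rp g₀ z‖ ^ 2 * h z) := (i2.sub i1).const_mul _
    have i5 : Integrable fun z => ‖rp g₀ z‖ ^ 2 * h z +
        2 * s * ((rp g z * conj (rp g₀ z)).re * h z - ‖rp g₀ z‖ ^ 2 * h z) := i1.add i4
    have i6 : Integrable fun z => s ^ 2 * (‖rp g z - rp g₀ z‖ ^ 2 * h z) := i3.const_mul _
    rw [← integral_sub i2 i1, ← integral_const_mul, ← integral_const_mul,
      ← integral_add i1 i4, ← integral_add i5 i6]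
    congr 1
    funext z
    rw [rp_conv h₀ hg s z, norm_expand]
    have e2 : ((rp g z - rp g₀ z) * conj (rp g₀ z)).re =
        (rp g z * conj (rp g₀ z)).re - ‖rp g₀ z‖ ^ 2 := by
      rw [sub_mul, Complex.sub_re, Complex.mul_conj, Complex.ofReal_re,
        Complex.normSq_eq_norm_sq]
    rw [e2]
    ring
  rw [e]
  have := mul_le_mul_of_nonneg_left hB (sq_nonneg s)
  linarith

/-- the test density: `x² m` is the energy of `g₀` -/
theorem test {h g₀ : ℂ → ℝ} (hh : Den h) (h₀ : Den g₀) {C x : ℝ} (hC : 0 < C) (hx : 0 < x)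
    (hm : 0 < ∫ z, h z) (hJ : JJ h g₀ = x ^ 2 * ∫ z, h z) (hW : WT h C ((∫ z, h z) / 8)) :
    ∃ g : ℂ → ℝ, Den g ∧ (∀ z, g z ≤ h z) ∧ (∫ z, h z) / 2 ≤ ∫ z, g z ∧
      ∫ z, (rp g z * conj (rp g₀ z)).re * h z ≤ 8 * C * x * ∫ z, h z := by
  set m := ∫ z, h z with hmd
  have c0 := rp_cont h₀
  have cc : Continuous fun z => conj (rp g₀ z) := Complex.continuous_conj.comp c0
  set k : ℂ → ℂ := fun z => (h z : ℂ) * conj (rp g₀ z) with hk
  have ck : Continuous k := (cR hh).mul cc
  have sk : HasCompactSupport k := (sR hh).mul_right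
  set F : ℂ → ℂ := pot k with hF
  have cF : Continuous F := pot_continuous ck sk
  have hik : Integrable k := ck.integrable_of_hasCompactSupport sk
  -- the norm of `k`
  have hkn : ∫ z, ‖k z‖ ≤ x * m := by
    have i1 : Integrable fun z => ‖rp g₀ z‖ ^ 2 * h z := intd hh (c0.norm.pow 2)
    have i0 : Integrable h := hh.cont.integrable_of_hasCompactSupport hh.supp
    have h1 : ∫ z, ‖k z‖ ≤ ∫ z, (x / 2 * h z + 1 / (2 * x) * (‖rp g₀ z‖ ^ 2 * h z)) := by
      refine integral_mono hik.norm ((i0.const_mul _).add (i1.const_mul _)) fun z => ?_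
      have h2 : ‖k z‖ = h z * ‖rp g₀ z‖ := by
        simp only [hk]
        rw [norm_mul, Complex.norm_conj, Complex.norm_real, Real.norm_of_nonneg (hh.nonneg z)]
      show ‖k z‖ ≤ _
      rw [h2]
      have h3 : ‖rp g₀ z‖ ≤ x / 2 + 1 / (2 * x) * ‖rp g₀ z‖ ^ 2 := by
        have h4 : 0 ≤ (‖rp g₀ z‖ - x) ^ 2 / (2 * x) := by positivity
        have h5 : (‖rp g₀ z‖ - x) ^ 2 / (2 * x) =
            x / 2 + 1 / (2 * x) * ‖rp g₀ z‖ ^ 2 - ‖rp g₀ z‖ := by
          field_simp
          ring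
        linarith
      have h6 := mul_le_mul_of_nonneg_left h3 (hh.nonneg z)
      calc h z * ‖rp g₀ z‖ ≤ h z * (x / 2 + 1 / (2 * x) * ‖rp g₀ z‖ ^ 2) := h6
        _ = _ := by ring
    rw [integral_add (i0.const_mul _) (i1.const_mul _), integral_const_mul,
      integral_const_mul] at h1
    have h7 : ∫ z, ‖rp g₀ z‖ ^ 2 * h z = x ^ 2 * m := hJ
    rw [h7] at h1
    have h8 : x / 2 * m + 1 / (2 * x) * (x ^ 2 * m) = x * m := by
      field_simp
      ring
    rw [← hmd, h8] at h1
    exact h1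
  set Λ : ℝ := 4 * C * x with hΛ
  have hΛ0 : 0 < Λ := by positivity
  have hw := hW ℂ (volume : Measure ℂ) (fun z => z) k measurable_id hik Λ hΛ0
  have hcau : ∀ z, cau (volume : Measure ℂ) (fun z => z) k z = F z := fun z => rfl
  simp only [hcau] at hw
  set A : Set ℂ := {z | Λ ≤ ‖F z‖} with hA
  have hAm : MeasurableSet A := (isClosed_le continuous_const cF.norm).measurableSet
  have hw2 : ∫ z in A, h z ≤ 3 / 8 * m := by
    refine hw.trans ?_
    have h1 : C * (∫ z, ‖k z‖) / Λ ≤ m / 4 := by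
      rw [div_le_iff₀ hΛ0]
      have h2 := mul_le_mul_of_nonneg_left hkn hC.le
      calc C * ∫ z, ‖k z‖ ≤ C * (x * m) := h2
        _ = m / 4 * Λ := by rw [hΛ]; ring
    linarith
  -- the cut-off
  set χ : ℂ → ℝ := fun z => max 0 (min 1 (2 - ‖F z‖ / Λ)) with hχ
  have cχ : Continuous χ :=
    continuous_const.max (continuous_const.min (continuous_const.sub (cF.norm.div_const _)))
  have χ0 : ∀ z, 0 ≤ χ z := fun z => le_max_left _ _
  have χ1 : ∀ z, χ z ≤ 1 := fun z => max_le zero_le_one (min_le_left _ _)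
  set g : ℂ → ℝ := fun z => χ z * h z with hg
  have dg : Den g :=
    { cont := cχ.mul hh.cont
      supp := hh.supp.mul_left
      nonneg := fun z => mul_nonneg (χ0 z) (hh.nonneg z) }
  have gh : ∀ z, g z ≤ h z := fun z => by
    have := mul_le_mul_of_nonneg_right (χ1 z) (hh.nonneg z)
    rw [one_mul] at this
    exact this
  have i0 : Integrable h := hh.cont.integrable_of_hasCompactSupport hh.supp
  have ig : Integrable g := dg.cont.integrable_of_hasCompactSupport dg.supp
  refine ⟨g, dg, gh, ?_, ?_⟩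
  · have h1 : ∫ z, (h z - A.indicator h z) ≤ ∫ z, g z := by
      refine integral_mono (i0.sub (i0.indicator hAm)) ig fun z => ?_
      show h z - A.indicator h z ≤ g z
      by_cases hz : z ∈ A
      · rw [indicator_of_mem hz, sub_self]
        exact dg.nonneg z
      · rw [indicator_of_notMem hz, sub_zero]
        have h2 : ‖F z‖ < Λ := by
          by_contra hcon
          exact hz (not_lt.1 hcon)
        have h3 : ‖F z‖ / Λ ≤ 1 := (div_le_one hΛ0).2 h2.le
        have h4 : χ z = 1 := by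
          simp only [hχ]
          rw [min_eq_left (by linarith), max_eq_right zero_le_one]
        simp only [hg, h4, one_mul, le_refl]
    rw [integral_sub i0 (i0.indicator hAm), integral_indicator hAm] at h1
    linarith
  · have e1 : ∫ z, (rp g z * conj (rp g₀ z)).re * h z = (∫ z, k z * pot (fun w => (g w : ℂ)) z).re := by
      have i5 : Integrable fun z => k z * pot (fun w => (g w : ℂ)) z :=
        (ck.mul (rp_cont dg)).integrable_of_hasCompactSupport sk.mul_right
      rw [← RCLike.re_eq_complex_re, ← integral_re i5]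
      congr 1
      funext z
      simp only [hk, RCLike.re_eq_complex_re]
      have : (h z : ℂ) * conj (rp g₀ z) * pot (fun w => (g w : ℂ)) z =
          (h z : ℂ) * (rp g z * conj (rp g₀ z)) := by
        show (h z : ℂ) * conj (rp g₀ z) * rp g z = _
        ring
      rw [this, Complex.re_ofReal_mul]
      ring
    rw [e1, anti ck sk (cR dg) (sR dg)]
    have h2 : ‖∫ z, (g z : ℂ) * pot k z‖ ≤ ∫ z, g z * (2 * Λ) := by
      refine norm_integral_le_of_norm_le (ig.mul_const _) (Eventually.of_forall fun z => ?_)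
      rw [norm_mul, Complex.norm_real, Real.norm_of_nonneg (dg.nonneg z)]
      by_cases hz : ‖F z‖ ≤ 2 * Λ
      · exact mul_le_mul_of_nonneg_left hz (dg.nonneg z)
      · have h3 : 2 < ‖F z‖ / Λ := by
          rw [lt_div_iff₀ hΛ0]
          exact not_le.1 hz
        have h4 : χ z = 0 := by
          simp only [hχ]
          rw [max_eq_left]
          exact (min_le_right _ _).trans (by linarith)
        have h5 : g z = 0 := by
          simp only [hg, h4, zero_mul]
        rw [h5]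
        simp
    rw [Complex.neg_re]
    have h3 := Complex.abs_re_le_norm (∫ z, (g z : ℂ) * pot k z)
    have h4 := neg_abs_le (∫ z, (g z : ℂ) * pot k z).re
    have h5 : ∫ z, g z * (2 * Λ) = (∫ z, g z) * (2 * Λ) := integral_mul_const _ _
    have h6 : ∫ z, g z ≤ m := integral_mono ig i0 gh
    have h7 : (∫ z, g z) * (2 * Λ) ≤ m * (2 * Λ) := mul_le_mul_of_nonneg_right h6 (by positivity)
    have h8 : m * (2 * Λ) = 8 * C * x * m := by
      rw [hΛ]
      ring
    linarith

/-- job IMP -/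
theorem imp (h1 : S_GAM) (h2 : S_VAR) (_h3 : S_CAU) : S_IMP := by
  intro C hC
  set t1 : ℝ := 1 / (41 * C + 1) with ht1
  have ht0 : 0 < t1 := by positivity
  have ht1' : t1 ≤ 1 := by
    rw [ht1, div_le_one (by positivity)]
    linarith
  refine ⟨t1 / 2, by positivity, by linarith, fun h hh hW => ?_⟩
  set m := ∫ z, h z with hmd
  have hm0 : 0 ≤ m := integral_nonneg hh.nonneg
  rcases hm0.eq_or_lt with hm | hm
  · refine ⟨h, hh, fun z => le_rfl, ?_, ?_⟩
    · rw [← hmd, ← hm]
      simp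
    · rw [← hmd, ← hm]
      obtain ⟨-, -, -, -, -, -, -, hG, -⟩ := h1 h hh
      simpa using hG
  have i0 : Integrable h := hh.cont.integrable_of_hasCompactSupport hh.supp
  -- a bound for the second variation
  obtain ⟨B, hB0, hB⟩ : ∃ B : ℝ, 0 ≤ B ∧ ∀ g g₀ : ℂ → ℝ, Den g → Den g₀ → (∀ z, g z ≤ h z) →
      (∀ z, g₀ z ≤ h z) → ∫ z, ‖rp g z - rp g₀ z‖ ^ 2 * h z ≤ B := by
    obtain ⟨R, hR⟩ := hh.supp.isCompact.isBounded.subset_closedBall (0 : ℂ)
    have hh0 : ∀ z, R < ‖z‖ → h z = 0 := by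
      intro w hw
      by_contra hne
      have h1 := hR (subset_tsupport h hne)
      rw [mem_closedBall_zero_iff] at h1
      linarith
    obtain ⟨G, hG⟩ := hh.supp.exists_bound_of_continuous hh.cont
    have hG0 : 0 ≤ G := (norm_nonneg _).trans (hG 0)
    obtain ⟨Cb, hCb, hb⟩ := pot_bound R
    have hg1 : ∀ g : ℂ → ℝ, Den g → (∀ z, g z ≤ h z) → ∀ z, ‖rp g z‖ ≤ Cb * G := by
      intro g hg hgh
      refine hb _ G (cR hg) (fun z hz => ?_) (fun z => ?_)
      · have h3 := hgh z
        rw [hh0 z hz] at h3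
        have h4 : g z = 0 := le_antisymm h3 (hg.nonneg z)
        rw [h4]
        simp
      · rw [Complex.norm_real, Real.norm_of_nonneg (hg.nonneg z)]
        exact (hgh z).trans ((le_abs_self _).trans (hG z))
    refine ⟨(2 * (Cb * G)) ^ 2 * m, by positivity, fun g g₀ hg hg0 hgh hgh0 => ?_⟩
    rw [hmd, ← integral_const_mul]
    refine integral_mono (intd hh (((rp_cont hg).sub (rp_cont hg0)).norm.pow 2))
      (i0.const_mul _) fun z => ?_
    refine mul_le_mul_of_nonneg_right ?_ (hh.nonneg z)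
    refine pow_le_pow_left₀ (norm_nonneg _) ?_ 2
    have h3 := norm_sub_le (rp g z) (rp g₀ z)
    have h4 := hg1 g hg hgh z
    have h5 := hg1 g₀ hg0 hgh0 z
    linarith
  -- parameters
  set e1 : ℝ := C ^ 2 * m with he1
  have he10 : 0 < e1 := by positivity
  set s : ℝ := min 1 (e1 / (B + 1)) with hs
  have hs0 : 0 < s := lt_min one_pos (by positivity)
  have hs1 : s ≤ 1 := min_le_left _ _
  have hsB : s * B ≤ e1 := by
    have h3 : s ≤ e1 / (B + 1) := min_le_right _ _
    rw [le_div_iff₀ (by linarith)] at h3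
    nlinarith
  -- almost minimizer
  set X : Set (ℂ → ℝ) := {g | Den g ∧ (∀ z, g z ≤ h z) ∧ m / 2 ≤ ∫ z, g z} with hX
  set V : Set ℝ := (fun g => JJ h g) '' X with hV
  have hVb : BddBelow V := ⟨0, by
    rintro _ ⟨g, -, rfl⟩
    exact JJ_nonneg hh g⟩
  have hVn : V.Nonempty := ⟨JJ h h, h, ⟨hh, fun z => le_rfl, by rw [← hmd]; linarith⟩, rfl⟩
  obtain ⟨_, ⟨g₀, ⟨d0, gh0, gm0⟩, rfl⟩, hg0⟩ :=
    exists_lt_of_csInf_lt hVn (show sInf V < sInf V + s * e1 by
      have : 0 < s * e1 := by positivity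
      linarith)
  have hJ : JJ h g₀ ≤ 81 * C ^ 2 * m := by
    by_contra hcon
    push Not at hcon
    set x : ℝ := √(JJ h g₀ / m) with hx
    have hq : 81 * C ^ 2 < JJ h g₀ / m := by
      rw [lt_div_iff₀ hm]
      exact hcon
    have hx2 : x ^ 2 = JJ h g₀ / m := Real.sq_sqrt (div_nonneg (JJ_nonneg hh g₀) hm0)
    have hx9 : 9 * C < x := by
      apply lt_of_pow_lt_pow_left₀ 2 (Real.sqrt_nonneg _)
      rw [hx2]
      calc (9 * C) ^ 2 = 81 * C ^ 2 := by ring
        _ < _ := hq
    have hx0 : 0 < x := lt_trans (by positivity) hx9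
    have hJx : JJ h g₀ = x ^ 2 * m := by
      rw [hx2]
      field_simp
    obtain ⟨g, dg, gh, gm, hgi⟩ := test hh d0 hC hx0 hm hJx hW
    have hv := variation (s := s) hh d0 dg (hB g g₀ dg d0 gh gh0)
    have hmem : JJ h (fun z => (1 - s) * g₀ z + s * g z) ∈ V := by
      refine ⟨_, ⟨conv d0 dg hs0.le hs1, fun z => ?_, ?_⟩, rfl⟩
      · have a1 := mul_le_mul_of_nonneg_left (gh0 z) (show 0 ≤ 1 - s by linarith)
        have a2 := mul_le_mul_of_nonneg_left (gh z) hs0.le
        calc (1 - s) * g₀ z + s * g z ≤ (1 - s) * h z + s * h z := add_le_add a1 a2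
          _ = h z := by ring
      · have j0 : Integrable g₀ := d0.cont.integrable_of_hasCompactSupport d0.supp
        have j1 : Integrable g := dg.cont.integrable_of_hasCompactSupport dg.supp
        rw [integral_add (j0.const_mul _) (j1.const_mul _), integral_const_mul,
          integral_const_mul]
        have a1 := mul_le_mul_of_nonneg_left gm0 (show 0 ≤ 1 - s by linarith)
        have a2 := mul_le_mul_of_nonneg_left gm hs0.le
        calc m / 2 = (1 - s) * (m / 2) + s * (m / 2) := by ring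
          _ ≤ _ := add_le_add a1 a2
    have hinf := csInf_le hVb hmem
    -- `JJ h g₀ - s e1 < inf ≤ JJ h g₀ + 2 s (A - JJ h g₀) + s² B`
    have h5 : - (s * e1) ≤ 2 * s * ((∫ z, (rp g z * conj (rp g₀ z)).re * h z) - JJ h g₀) +
        s ^ 2 * B := by
      have h6 : JJ h g₀ < sInf V + s * e1 := hg0
      linarith
    have h7 : JJ h g₀ ≤ (∫ z, (rp g z * conj (rp g₀ z)).re * h z) + e1 := by
      have h8 : s ^ 2 * B ≤ s * e1 := by
        calc s ^ 2 * B = s * (s * B) := by ring
          _ ≤ s * e1 := mul_le_mul_of_nonneg_left hsB hs0.le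
      by_contra hc
      push Not at hc
      have h9 : 2 * s * ((∫ z, (rp g z * conj (rp g₀ z)).re * h z) - JJ h g₀) <
          2 * s * (- e1) := by
        apply mul_lt_mul_of_pos_left _ (by positivity)
        linarith
      linarith
    have h10 : x ^ 2 * m ≤ 8 * C * x * m + C ^ 2 * m := by
      rw [← hJx]
      linarith
    have h11 : x ^ 2 ≤ 8 * C * x + C ^ 2 := by
      have : x ^ 2 * m ≤ (8 * C * x + C ^ 2) * m := by linarith
      exact le_of_mul_le_mul_right this hm
    nlinarith [mul_pos hC hx0, mul_pos hC hC]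
  -- the density `t1 g₀`
  have dg1 : Den (fun z => t1 * g₀ z) :=
    { cont := continuous_const.mul d0.cont
      supp := d0.supp.mul_left
      nonneg := fun z => mul_nonneg ht0.le (d0.nonneg z) }
  have j0 : Integrable g₀ := d0.cont.integrable_of_hasCompactSupport d0.supp
  refine ⟨fun z => t1 * g₀ z, dg1, fun z => ?_, ?_, ?_⟩
  · have := mul_le_mul_of_nonneg_right ht1' (d0.nonneg z)
    linarith [gh0 z]
  · rw [integral_const_mul]
    have := mul_le_mul_of_nonneg_left gm0 ht0.le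
    linarith
  · have hv := h2 _ dg1 (fun z => ((t1 * g₀ z : ℝ) : ℂ)) (cR dg1) (sR dg1) (fun z => t1 * g₀ z)
      dg1.cont dg1.supp (fun z => by
        rw [Complex.norm_real, Real.norm_of_nonneg (dg1.nonneg z)]
        exact le_of_eq (by ring)) dg1.nonneg
    have e1' : (∫ z, ((t1 * g₀ z : ℝ) : ℂ)) = ((∫ z, t1 * g₀ z : ℝ) : ℂ) := integral_ofReal
    rw [e1', Complex.ofReal_re] at hv
    have e2 : ∀ z, pot (fun z => ((t1 * g₀ z : ℝ) : ℂ)) z = (t1 : ℂ) * rp g₀ z := by
      intro z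
      unfold rp
      rw [← pot_const_mul]
      apply pot_congr
      intro w
      push_cast
      ring
    have h3 : ∫ z, ‖pot (fun z => ((t1 * g₀ z : ℝ) : ℂ)) z‖ ^ 2 * (t1 * g₀ z) ≤
        t1 ^ 3 * JJ h g₀ := by
      unfold JJ
      rw [← integral_const_mul]
      refine integral_mono ?_ ((intd hh ((rp_cont d0).norm.pow 2)).const_mul _) fun z => ?_
      · exact intd dg1 ((pot_continuous (cR dg1) (sR dg1)).norm.pow 2)
      · show ‖pot (fun z => ((t1 * g₀ z : ℝ) : ℂ)) z‖ ^ 2 * (t1 * g₀ z) ≤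
          t1 ^ 3 * (‖rp g₀ z‖ ^ 2 * h z)
        rw [e2 z, norm_mul, Complex.norm_real, Real.norm_of_nonneg ht0.le]
        have h4 := mul_le_mul_of_nonneg_left (gh0 z)
          (show 0 ≤ t1 ^ 3 * ‖rp g₀ z‖ ^ 2 by positivity)
        calc (t1 * ‖rp g₀ z‖) ^ 2 * (t1 * g₀ z) = t1 ^ 3 * ‖rp g₀ z‖ ^ 2 * g₀ z := by ring
          _ ≤ t1 ^ 3 * ‖rp g₀ z‖ ^ 2 * h z := h4
          _ = _ := by ring
    rw [integral_const_mul] at hv ⊢
    have h4 : t1 ^ 2 * (81 * C ^ 2) ≤ 1 / 20 := by
      rw [ht1, div_pow, one_pow, div_mul_eq_mul_div, one_mul, div_le_div_iff₀ (by positivity)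
        (by norm_num)]
      nlinarith
    have h5 : t1 ^ 3 * JJ h g₀ ≤ t1 * (m / 20) := by
      calc t1 ^ 3 * JJ h g₀ ≤ t1 ^ 3 * (81 * C ^ 2 * m) :=
            mul_le_mul_of_nonneg_left hJ (by positivity)
        _ = t1 * ((t1 ^ 2 * (81 * C ^ 2)) * m) := by ring
        _ ≤ t1 * (1 / 20 * m) :=
            mul_le_mul_of_nonneg_left (mul_le_mul_of_nonneg_right h4 hm.le) ht0.le
        _ = _ := by ring
    have h6 := mul_le_mul_of_nonneg_left gm0 ht0.le
    linarith

end

end Pool.Agent.Q63.TC
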