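import Pool.Agent.Q130.TC.Stm
import Pool.Agent.H352R3.SA.Fub
import Pool.Agent.H352R3.SA.Sub
import Pool.Agent.H352R3.SA.Bnd
import Pool.Agent.H352R3.SA.Pot

/-!
# Project TC (helper130): jobs `PRD` and `NUB`
-/

set_option autoImplicit false

namespace Pool.Agent.Q63.TC

open MeasureTheory Set Metric Filter Topology
open scoped ComplexConjugate
open Pool.Agent.H352R3.SA (Den pot LK Gam pot_integrable pot_continuous pot_zero pot_tendsto
  pot_bound pot_sq)
open Pool.Agent.Q130.TC

theorem pot_add {φ ψ : ℂ → ℂ} (hφ : Continuous φ) (cφ : HasCompactSupport φ)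
    (hψ : Continuous ψ) (cψ : HasCompactSupport ψ) (z : ℂ) :
    pot (fun w => φ w + ψ w) z = pot φ z + pot ψ z := by
  unfold pot
  rw [← integral_add (pot_integrable hφ cφ z) (pot_integrable hψ cψ z)]
  congr 1
  funext w
  ring

theorem pot_const_mul (c : ℂ) (φ : ℂ → ℂ) (z : ℂ) :
    pot (fun w => c * φ w) z = c * pot φ z := by
  unfold pot
  rw [← integral_const_mul]
  congr 1
  funext w
  ring

theorem pot_neg (φ : ℂ → ℂ) (z : ℂ) : pot (fun w => - φ w) z = - pot φ z := by
  have h := pot_const_mul (-1) φ z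
  simpa using h

theorem pot_congr {φ ψ : ℂ → ℂ} (h : ∀ w, φ w = ψ w) (z : ℂ) : pot φ z = pot ψ z := by
  have : φ = ψ := funext h
  rw [this]

theorem pot_sub {φ ψ : ℂ → ℂ} (hφ : Continuous φ) (cφ : HasCompactSupport φ)
    (hψ : Continuous ψ) (cψ : HasCompactSupport ψ) (z : ℂ) :
    pot (fun w => φ w - ψ w) z = pot φ z - pot ψ z := by
  unfold pot
  rw [← integral_sub (pot_integrable hφ cφ z) (pot_integrable hψ cψ z)]
  congr 1
  funext w
  ring

/-- job PRD -/
theorem prd : S_PRD := by
  intro φ ψ hφ cφ hψ cψ z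
  have hpφ := pot_continuous hφ cφ
  have hpψ := pot_continuous hψ cψ
  have h1 := pot_sq hφ cφ z
  have h2 := pot_sq hψ cψ z
  have h3 := pot_sq (hφ.add hψ) (cφ.add cψ) z
  have h4 : pot (φ + ψ) = fun w => pot φ w + pot ψ w := by
    funext w
    exact pot_add hφ cφ hψ cψ w
  have h5 : pot (fun w => (φ + ψ) w * pot (φ + ψ) w) z =
      pot (fun w => φ w * pot φ w) z + pot (fun w => ψ w * pot ψ w) z +
        pot (fun w => φ w * pot ψ w + ψ w * pot φ w) z := by
    rw [h4, ← pot_add (φ := fun w => φ w * pot φ w) (ψ := fun w => ψ w * pot ψ w)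
        (hφ.mul hpφ) cφ.mul_right (hψ.mul hpψ) cψ.mul_right,
      ← pot_add (φ := fun w => φ w * pot φ w + ψ w * pot ψ w)
        (ψ := fun w => φ w * pot ψ w + ψ w * pot φ w)
        ((hφ.mul hpφ).add (hψ.mul hpψ)) (cφ.mul_right.add cψ.mul_right)
        ((hφ.mul hpψ).add (hψ.mul hpφ)) (cφ.mul_right.add cψ.mul_right)]
    apply pot_congr
    intro w
    simp only [Pi.add_apply]
    ring
  rw [h5, h4] at h3
  have h6 : (2:ℂ) ≠ 0 := two_ne_zero
  apply mul_left_cancel₀ h6
  linear_combination h3 - h1 - h2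

/-- powers of a potential -/
theorem pot_pow {k : ℂ → ℂ} (hk : Continuous k) (ck : HasCompactSupport k) (n : ℕ) (z : ℂ) :
    pot k z ^ (n + 1) = (n + 1) * pot (fun w => k w * pot k w ^ n) z := by
  induction n generalizing z with
  | zero =>
      have : (fun w => k w * pot k w ^ 0) = k := by
        funext w
        simp
      rw [this]
      simp
  | succ n ih =>
      have hp := pot_continuous hk ck
      have hc : Continuous (fun w => k w * pot k w ^ n) := hk.mul (hp.pow n)
      have hs : HasCompactSupport (fun w => k w * pot k w ^ n) := ck.mul_right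
      have h1 := prd k _ hk ck hc hs z
      have hn : ((n:ℂ) + 1) ≠ 0 := by
        exact_mod_cast Nat.succ_ne_zero n
      have h2 : (fun w => k w * pot (fun w => k w * pot k w ^ n) w + k w * pot k w ^ n * pot k w) =
          fun w => (((n:ℂ) + 2) / (n + 1)) * (k w * pot k w ^ (n + 1)) := by
        funext w
        have h3 : pot (fun w => k w * pot k w ^ n) w = pot k w ^ (n + 1) / (n + 1) := by
          rw [ih w]
          field_simp
        rw [h3]
        field_simp
        ring
      rw [h2, pot_const_mul] at h1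
      rw [pow_succ, mul_comm, ih z]
      have h4 : pot k z * (((n:ℂ) + 1) * pot (fun w => k w * pot k w ^ n) z) =
          ((n:ℂ) + 1) * (pot k z * pot (fun w => k w * pot k w ^ n) z) := by ring
      rw [h4, h1]
      push_cast
      field_simp
      ring

/-- the exponential of a potential -/
theorem exp_pot {k : ℂ → ℂ} (hk : Continuous k) (ck : HasCompactSupport k) (z : ℂ) :
    Complex.exp (pot k z) = 1 + pot (fun w => k w * Complex.exp (pot k w)) z := by
  have hp := pot_continuous hk ck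
  obtain ⟨P, hP⟩ : ∃ P : ℝ, ∀ w, ‖pot k w‖ ≤ P := by
    obtain ⟨R, hR⟩ := ck.isCompact.isBounded.subset_closedBall (0 : ℂ)
    obtain ⟨C, hC, hb⟩ := pot_bound R
    obtain ⟨M, hM⟩ := ck.exists_bound_of_continuous hk
    refine ⟨C * M, hb k M hk (fun w hw => ?_) hM⟩
    by_contra hne
    have h1 := hR (subset_tsupport k hne)
    rw [mem_closedBall_zero_iff] at h1
    linarith
  have hP0 : 0 ≤ P := (norm_nonneg _).trans (hP 0)
  have h1 : HasSum (fun n : ℕ => pot (fun w => k w * (pot k w ^ n / (n.factorial : ℂ))) z)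
      (pot (fun w => k w * Complex.exp (pot k w)) z) := by
    unfold pot
    refine hasSum_integral_of_dominated_convergence
      (fun (n : ℕ) (w : ℂ) => ‖k w * (z - w)⁻¹‖ * (P ^ n / (n.factorial : ℝ))) ?_ ?_ ?_ ?_ ?_
    · intro n
      have h : Continuous (fun w => k w * (pot k w ^ n / (n.factorial : ℂ))) :=
        hk.mul ((hp.pow n).div_const _)
      exact (pot_integrable h ck.mul_right z).aestronglyMeasurable
    · intro n
      refine Eventually.of_forall fun w => ?_
      have e : k w * (pot k w ^ n / (n.factorial : ℂ)) * (z - w)⁻¹ =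
          (k w * (z - w)⁻¹) * (pot k w ^ n / (n.factorial : ℂ)) := by ring
      show ‖k w * (pot k w ^ n / (n.factorial : ℂ)) * (z - w)⁻¹‖ ≤ _
      rw [e, norm_mul]
      apply mul_le_mul_of_nonneg_left _ (norm_nonneg _)
      rw [norm_div, norm_pow, Complex.norm_natCast]
      exact div_le_div_of_nonneg_right (pow_le_pow_left₀ (norm_nonneg _) (hP w) n)
        (Nat.cast_nonneg _)
    · refine Eventually.of_forall fun w => ?_
      exact (Real.summable_pow_div_factorial P).mul_left _
    · have e : (fun w => ∑' n : ℕ, ‖k w * (z - w)⁻¹‖ * (P ^ n / (n.factorial : ℝ))) =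
          fun w => ‖k w * (z - w)⁻¹‖ * ∑' n : ℕ, (P ^ n / (n.factorial : ℝ)) := by
        funext w
        exact tsum_mul_left
      rw [e]
      exact (pot_integrable hk ck z).norm.mul_const _
    · refine Eventually.of_forall fun w => ?_
      have h2 : HasSum (fun n : ℕ => pot k w ^ n / (n.factorial : ℂ)) (Complex.exp (pot k w)) := by
        rw [Complex.exp_eq_exp_ℂ]
        exact NormedSpace.expSeries_div_hasSum_exp (pot k w)
      have h3 := (h2.mul_left (k w)).mul_right ((z - w)⁻¹)
      exact h3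
  have h2 : (fun n : ℕ => pot (fun w => k w * (pot k w ^ n / (n.factorial : ℂ))) z) =
      fun n : ℕ => pot k z ^ (n + 1) / ((n + 1).factorial : ℂ) := by
    funext n
    have e : (fun w => k w * (pot k w ^ n / (n.factorial : ℂ))) =
        fun w => (n.factorial : ℂ)⁻¹ * (k w * pot k w ^ n) := by
      funext w
      ring
    rw [e, pot_const_mul, pot_pow hk ck n z, Nat.factorial_succ]
    have hn : ((n:ℂ) + 1) ≠ 0 := by exact_mod_cast Nat.succ_ne_zero n
    have hf : (n.factorial : ℂ) ≠ 0 := by exact_mod_cast n.factorial_ne_zero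
    push_cast
    field_simp
  rw [h2] at h1
  have h3 : HasSum (fun n : ℕ => pot k z ^ n / (n.factorial : ℂ)) (Complex.exp (pot k z)) := by
    rw [Complex.exp_eq_exp_ℂ]
    exact NormedSpace.expSeries_div_hasSum_exp (pot k z)
  have h4 := (hasSum_nat_add_iff' 1).2 h3
  have h5 := h1.unique h4
  rw [h5]
  simp

/-- `D = pot (κ D + r)` implies `D exp (- pot κ) = pot (r exp (- pot κ))` -/
theorem solve {κ r D : ℂ → ℂ} (hκ : Continuous κ) (cκ : HasCompactSupport κ) (hr : Continuous r)
    (cr : HasCompactSupport r) (hD : Continuous D)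
    (h : ∀ z, D z = pot (fun w => κ w * D w + r w) z) (z : ℂ) :
    D z * Complex.exp (- pot κ z) = pot (fun w => r w * Complex.exp (- pot κ w)) z := by
  set E : ℂ → ℂ := fun w => Complex.exp (- pot κ w) with hE
  have hpκ := pot_continuous hκ cκ
  have cE : Continuous E := Complex.continuous_exp.comp hpκ.neg
  have hEz : ∀ z, E z = 1 - pot (fun w => κ w * E w) z := by
    intro z
    have h1 := exp_pot hκ.neg cκ.neg z
    have e1 : ∀ w, pot (-κ) w = - pot κ w := fun w => pot_neg κ w
    rw [e1] at h1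
    have e2 : (fun w => (-κ) w * Complex.exp (pot (-κ) w)) = fun w => - (κ w * E w) := by
      funext w
      rw [e1]
      simp only [Pi.neg_apply, hE]
      ring
    rw [e2, pot_neg] at h1
    show Complex.exp (- pot κ z) = _
    rw [h1]
    ring
  set ρ : ℂ → ℂ := fun w => κ w * D w + r w with hρ
  have cρ : Continuous ρ := (hκ.mul hD).add hr
  have sρ : HasCompactSupport ρ := cκ.mul_right.add cr
  have hκE : Continuous (fun w => κ w * E w) := hκ.mul cE
  have sκE : HasCompactSupport (fun w => κ w * E w) := cκ.mul_right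
  have h1 := prd ρ (fun w => κ w * E w) cρ sρ hκE sκE z
  have h2 : pot ρ = D := by
    funext w
    exact (h w).symm
  have h3 : ∀ w, pot (fun w => κ w * E w) w = 1 - E w := by
    intro w
    rw [hEz w]
    ring
  rw [h2, h3] at h1
  have h4 : (fun w => ρ w * pot (fun w => κ w * E w) w + κ w * E w * D w) =
      fun w => ρ w - r w * E w := by
    funext w
    rw [h3]
    simp only [hρ]
    ring
  rw [h4, pot_sub (φ := fun w => ρ w) (ψ := fun w => r w * E w) cρ sρ (hr.mul cE)
    cr.mul_right] at h1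
  have h5 : pot (fun w => ρ w) z = D z := (h z).symm
  rw [h5] at h1
  show D z * E z = pot (fun w => r w * E w) z
  linear_combination -h1

/-- the function `L` has no zeros -/
theorem L_ne_zero (h1 : S_GAM) {g : ℂ → ℝ} (hg : Den g) (z : ℂ) : fL g z ≠ 0 := by
  obtain ⟨cL, cK, eL, eK, hKL, -⟩ := h1 g hg
  obtain ⟨R, hR⟩ := hg.supp.isCompact.isBounded.subset_closedBall (0 : ℂ)
  have hg0 : ∀ z, R < ‖z‖ → g z = 0 := by
    intro w hw
    by_contra hne
    have h1 := hR (subset_tsupport g hne)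
    rw [mem_closedBall_zero_iff] at h1
    linarith
  obtain ⟨G, hG⟩ := hg.supp.exists_bound_of_continuous hg.cont
  have hG0 : 0 ≤ G := (norm_nonneg _).trans (hG 0)
  obtain ⟨C, hC, hb⟩ := pot_bound R
  set c0 : ℝ := C * G with hc0
  have hc00 : 0 ≤ c0 := mul_nonneg hC hG0
  -- choice of `s`
  obtain ⟨a, ha0, ha⟩ : ∃ a : ℝ, 0 < a ∧ C * (G * a * Real.exp c0) ≤ 1 / 2 := by
    have hpos : 0 < 2 * (C * (G * Real.exp c0) + 1) := by positivity
    refine ⟨1 / (2 * (C * (G * Real.exp c0) + 1)), by positivity, ?_⟩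
    have h2 : C * (G * (1 / (2 * (C * (G * Real.exp c0) + 1))) * Real.exp c0) =
        (C * (G * Real.exp c0)) / (C * (G * Real.exp c0) + 1) * (1 / 2) := by
      field_simp
    rw [h2]
    have h3 : (C * (G * Real.exp c0)) / (C * (G * Real.exp c0) + 1) ≤ 1 := by
      rw [div_le_one (by positivity)]
      linarith
    linarith
  set den : ℂ → ℝ := fun w => ‖fL g w‖ ^ 2 + a ^ 2 with hden
  have hdpos : ∀ w, 0 < den w := fun w => by
    simp only [hden]
    positivity
  have hdc : Continuous den := (cL.norm.pow 2).add continuous_const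
  have hgc : Continuous fun w => (g w : ℂ) := Complex.continuous_ofReal.comp hg.cont
  have hgs : HasCompactSupport fun w => (g w : ℂ) :=
    hg.supp.comp_left (g := fun x : ℝ => (x : ℂ)) Complex.ofReal_zero
  have hdi : Continuous fun w => (((den w)⁻¹ : ℝ) : ℂ) :=
    Complex.continuous_ofReal.comp (hdc.inv₀ fun w => (hdpos w).ne')
  have hcK : Continuous fun w => conj (fK g w) := Complex.continuous_conj.comp cK
  have hcL : Continuous fun w => conj (fL g w) := Complex.continuous_conj.comp cL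
  set κ : ℂ → ℂ := fun w => (g w : ℂ) * (-(conj (fK g w) * conj (fL g w) * (((den w)⁻¹ : ℝ) : ℂ)))
    with hκd
  set r : ℂ → ℂ := fun w => (g w : ℂ) * (-(conj (fK g w) * (((a ^ 2) * (den w)⁻¹ : ℝ) : ℂ)))
    with hrd
  have hκ : Continuous κ := hgc.mul ((hcK.mul hcL).mul hdi).neg
  have cκ : HasCompactSupport κ := hgs.mul_right
  have hdi2 : Continuous fun w => (((a ^ 2) * (den w)⁻¹ : ℝ) : ℂ) :=
    Complex.continuous_ofReal.comp (continuous_const.mul (hdc.inv₀ fun w => (hdpos w).ne'))
  have hr : Continuous r := hgc.mul (hcK.mul hdi2).neg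
  have cr : HasCompactSupport r := hgs.mul_right
  have hsum : ∀ w, κ w * fL g w + r w = -((g w : ℂ) * conj (fK g w)) := by
    intro w
    have hd : ((den w : ℝ) : ℂ) ≠ 0 := by exact_mod_cast (hdpos w).ne'
    have hLL : conj (fL g w) * fL g w = ((‖fL g w‖ ^ 2 : ℝ) : ℂ) := by
      rw [mul_comm, Complex.mul_conj, Complex.normSq_eq_norm_sq]
    have hdd : ((den w : ℝ) : ℂ) = ((‖fL g w‖ ^ 2 : ℝ) : ℂ) + ((a ^ 2 : ℝ) : ℂ) := by
      simp only [hden]
      push_cast
      ring
    have e1 : κ w * fL g w + r w =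
        -((g w : ℂ) * conj (fK g w)) * ((conj (fL g w) * fL g w + ((a ^ 2 : ℝ) : ℂ)) *
          ((den w : ℝ) : ℂ)⁻¹) := by
      simp only [hκd, hrd]
      push_cast
      ring
    rw [e1, hLL, ← hdd, mul_inv_cancel₀ hd, mul_one]
  set M : ℂ → ℂ := fun w => Complex.exp (pot κ w) with hM
  have cM : Continuous M := Complex.continuous_exp.comp (pot_continuous hκ cκ)
  have hMz : ∀ w, M w = 1 + pot (fun w => κ w * M w) w := fun w => exp_pot hκ cκ w
  have hLz : ∀ w, fL g w = 1 + pot (fun w => κ w * fL g w + r w) w := by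
    intro w
    rw [eL w]
    have : (fun w => κ w * fL g w + r w) = fun w => -((g w : ℂ) * conj (fK g w)) := by
      funext w
      exact hsum w
    rw [this, pot_neg]
    ring
  have hD := solve (D := fun w => fL g w - M w) hκ cκ hr cr (cL.sub cM) (fun w => by
    have e : (fun w => κ w * (fL g w - M w) + r w) =
        fun w => (κ w * fL g w + r w) - κ w * M w := by
      funext w
      ring
    rw [e, pot_sub (φ := fun w => κ w * fL g w + r w) (ψ := fun w => κ w * M w)
      ((hκ.mul cL).add hr) (cκ.mul_right.add cr) (hκ.mul cM) cκ.mul_right]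
    show fL g w - M w = _
    rw [hLz w, hMz w]
    ring) z
  -- bounds
  have hκb : ∀ w, ‖κ w‖ ≤ G := by
    intro w
    have h2 : ‖κ w‖ = ‖g w‖ * (‖fK g w‖ * ‖fL g w‖ * (den w)⁻¹) := by
      simp only [hκd]
      rw [norm_mul, norm_neg, norm_mul, norm_mul, Complex.norm_conj, Complex.norm_conj,
        Complex.norm_real, Complex.norm_real, Real.norm_of_nonneg (inv_nonneg.2 (hdpos w).le)]
    rw [h2]
    have h3 : ‖fK g w‖ * ‖fL g w‖ * (den w)⁻¹ ≤ 1 := by
      rw [← div_eq_mul_inv, div_le_one (hdpos w)]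
      simp only [hden]
      nlinarith [hKL w, norm_nonneg (fK g w), norm_nonneg (fL g w), sq_nonneg a]
    calc ‖g w‖ * (‖fK g w‖ * ‖fL g w‖ * (den w)⁻¹) ≤ ‖g w‖ * 1 :=
          mul_le_mul_of_nonneg_left h3 (norm_nonneg _)
      _ ≤ G := by
          rw [mul_one]
          exact hG w
  have hκp : ∀ w, ‖pot κ w‖ ≤ c0 :=
    hb κ G hκ (fun w hw => by simp only [hκd, hg0 w hw]; simp) hκb
  have hEb : ∀ w, ‖Complex.exp (- pot κ w)‖ ≤ Real.exp c0 := by
    intro w
    rw [Complex.norm_exp]
    apply Real.exp_le_exp.2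
    have h2 := Complex.abs_re_le_norm (- pot κ w)
    rw [norm_neg] at h2
    exact (le_abs_self _).trans (h2.trans (hκp w))
  have hrb : ∀ w, ‖r w‖ ≤ G * a := by
    intro w
    have h2 : ‖r w‖ = ‖g w‖ * (‖fK g w‖ * (a ^ 2 * (den w)⁻¹)) := by
      simp only [hrd]
      rw [norm_mul, norm_neg, norm_mul, Complex.norm_conj, Complex.norm_real, Complex.norm_real,
        Real.norm_of_nonneg (mul_nonneg (sq_nonneg a) (inv_nonneg.2 (hdpos w).le))]
    rw [h2]
    have h3 : ‖fK g w‖ * (a ^ 2 * (den w)⁻¹) ≤ a := by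
      have e : ‖fK g w‖ * (a ^ 2 * (den w)⁻¹) = (‖fK g w‖ * a ^ 2) / den w := by
        rw [div_eq_mul_inv]
        ring
      rw [e, div_le_iff₀ (hdpos w)]
      simp only [hden]
      have h4 := hKL w
      have h5 := norm_nonneg (fK g w)
      have h6 : ‖fK g w‖ * a ≤ ‖fL g w‖ * a := mul_le_mul_of_nonneg_right h4 ha0.le
      have h7 : ‖fL g w‖ * a ≤ ‖fL g w‖ ^ 2 + a ^ 2 := by
        nlinarith [sq_nonneg (‖fL g w‖ - a), norm_nonneg (fL g w)]
      nlinarith
    exact mul_le_mul (hG w) h3 (by positivity) hG0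
  have hrp : ‖pot (fun w => r w * Complex.exp (- pot κ w)) z‖ ≤ 1 / 2 := by
    refine (hb (fun w => r w * Complex.exp (- pot κ w)) (G * a * Real.exp c0)
      (hr.mul (Complex.continuous_exp.comp
      (pot_continuous hκ cκ).neg)) (fun w hw => ?_) (fun w => ?_) z).trans ha
    · simp only [hrd, hg0 w hw]
      simp
    · rw [norm_mul]
      exact mul_le_mul (hrb w) (hEb w) (norm_nonneg _) (by positivity)
  intro hL0
  have hME : M z * Complex.exp (- pot κ z) = 1 := by
    simp only [hM]
    rw [← Complex.exp_add]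
    simp
  have h2 : (fL g z - M z) * Complex.exp (- pot κ z) = -1 := by
    rw [hL0, sub_mul, hME]
    ring
  have h3 : pot (fun w => r w * Complex.exp (- pot κ w)) z = -1 := by
    rw [← hD]
    exact h2
  rw [h3, norm_neg, norm_one] at hrp
  norm_num at hrp

/-- job NUB -/
theorem nub (h1 : S_GAM) (_h2 : S_PRD) : S_NUB := by
  intro g hg
  have hL0 := L_ne_zero h1 hg
  obtain ⟨cL, cK, eL, eK, hKL, -, hGam, -⟩ := h1 g hg
  have hgc : Continuous fun w => (g w : ℂ) := Complex.continuous_ofReal.comp hg.cont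
  have hgs : HasCompactSupport fun w => (g w : ℂ) :=
    hg.supp.comp_left (g := fun x : ℝ => (x : ℂ)) Complex.ofReal_zero
  have hcK : Continuous fun w => conj (fK g w) := Complex.continuous_conj.comp cK
  have hcL : Continuous fun w => conj (fL g w) := Complex.continuous_conj.comp cL
  have hLi : Continuous fun w => (fL g w)⁻¹ := cL.inv₀ hL0
  set κ : ℂ → ℂ := fun w => (g w : ℂ) * (-(conj (fK g w) * (fL g w)⁻¹)) with hκd
  have hκ : Continuous κ := hgc.mul (hcK.mul hLi).neg
  have cκ : HasCompactSupport κ := hgs.mul_right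
  have hκL : (fun w => κ w * fL g w) = fun w => -((g w : ℂ) * conj (fK g w)) := by
    funext w
    simp only [hκd]
    have := hL0 w
    field_simp
  set M : ℂ → ℂ := fun w => Complex.exp (pot κ w) with hM
  have cM : Continuous M := Complex.continuous_exp.comp (pot_continuous hκ cκ)
  have hMz : ∀ w, M w = 1 + pot (fun w => κ w * M w) w := fun w => exp_pot hκ cκ w
  have hLz : ∀ w, fL g w = 1 + pot (fun w => κ w * fL g w) w := by
    intro w
    rw [eL w, hκL, pot_neg]
    ring
  have hLM : ∀ z, fL g z = M z := by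
    intro z
    have hD := solve (D := fun w => fL g w - M w) (r := fun _ => 0) hκ cκ continuous_const
      (HasCompactSupport.zero : HasCompactSupport (0 : ℂ → ℂ))
      (cL.sub cM) (fun w => by
        have e : (fun w => κ w * (fL g w - M w) + 0) =
            fun w => κ w * fL g w - κ w * M w := by
          funext w
          ring
        rw [e, pot_sub (φ := fun w => κ w * fL g w) (ψ := fun w => κ w * M w)
          (hκ.mul cL) cκ.mul_right (hκ.mul cM) cκ.mul_right]
        show fL g w - M w = _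
        rw [hLz w, hMz w]
        ring) z
    have e0 : pot (fun w => (0:ℂ) * Complex.exp (- pot κ w)) z = 0 := by
      unfold pot
      simp
    rw [e0] at hD
    rcases mul_eq_zero.1 hD with h | h
    · exact sub_eq_zero.1 h
    · exact absurd h (Complex.exp_ne_zero _)
  -- `1 / L`
  set ψ : ℂ → ℂ := fun w => (g w : ℂ) * (conj (fK g w) * ((fL g w)⁻¹ * (fL g w)⁻¹)) with hψd
  have hψ : Continuous ψ := hgc.mul (hcK.mul (hLi.mul hLi))
  have cψ : HasCompactSupport ψ := hgs.mul_right
  have hinv : ∀ z, pot ψ z = (fL g z)⁻¹ - 1 := by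
    intro z
    have h3 := exp_pot hκ.neg cκ.neg z
    have e1 : ∀ w, pot (-κ) w = - pot κ w := fun w => pot_neg κ w
    have e2 : (fun w => (-κ) w * Complex.exp (pot (-κ) w)) = ψ := by
      funext w
      rw [e1, Complex.exp_neg]
      have : Complex.exp (pot κ w) = fL g w := (hLM w).symm
      rw [this]
      simp only [Pi.neg_apply, hκd, hψd]
      ring
    rw [e2, e1, Complex.exp_neg] at h3
    have h4 : Complex.exp (pot κ z) = fL g z := (hLM z).symm
    rw [h4] at h3
    rw [h3]
    ring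
  set φ : ℂ → ℂ := fun w => (g w : ℂ) * conj (fL g w) with hφd
  have hφ : Continuous φ := hgc.mul hcL
  have cφ : HasCompactSupport φ := hgs.mul_right
  have hpφ : ∀ z, pot φ z = - fK g z := by
    intro z
    rw [eK z]
    ring
  set b : ℂ → ℂ := fun w => ((‖fL g w‖ ^ 2 - ‖fK g w‖ ^ 2 : ℝ) : ℂ) * ((fL g w)⁻¹ * (fL g w)⁻¹)
    with hbd
  have hb : Continuous b :=
    (Complex.continuous_ofReal.comp ((cL.norm.pow 2).sub (cK.norm.pow 2))).mul (hLi.mul hLi)
  have hbg : (fun w => b w * (g w : ℂ)) = fun w => φ w + (φ w * pot ψ w + ψ w * pot φ w) := by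
    funext w
    rw [hinv w, hpφ w]
    simp only [hbd, hφd, hψd]
    have hLL : ((‖fL g w‖ ^ 2 : ℝ) : ℂ) = fL g w * conj (fL g w) := by
      rw [Complex.mul_conj, Complex.normSq_eq_norm_sq]
    have hKK : ((‖fK g w‖ ^ 2 : ℝ) : ℂ) = fK g w * conj (fK g w) := by
      rw [Complex.mul_conj, Complex.normSq_eq_norm_sq]
    have : ((‖fL g w‖ ^ 2 - ‖fK g w‖ ^ 2 : ℝ) : ℂ) =
        fL g w * conj (fL g w) - fK g w * conj (fK g w) := by
      rw [← hLL, ← hKK]
      push_cast
      ring
    rw [this]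
    have hne := hL0 w
    field_simp
    ring
  have hpbg : ∀ z, pot (fun w => b w * (g w : ℂ)) z = - (fK g z * (fL g z)⁻¹) := by
    intro z
    rw [hbg, pot_add (φ := fun w => φ w) (ψ := fun w => φ w * pot ψ w + ψ w * pot φ w) hφ cφ
      ((hφ.mul (pot_continuous hψ cψ)).add (hψ.mul (pot_continuous hφ cφ)))
      (cφ.mul_right.add cψ.mul_right), ← prd φ ψ hφ cφ hψ cψ z, hinv z]
    have e3 : pot (fun w => φ w) z = - fK g z := hpφ z
    rw [e3]
    ring
  refine ⟨b, hb, fun z => ?_, fun z => ?_, ?_⟩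
  · have hLp : 0 < ‖fL g z‖ := norm_pos_iff.2 (hL0 z)
    simp only [hbd]
    rw [norm_mul, norm_mul, norm_inv, Complex.norm_real]
    have h3 : ‖fK g z‖ ^ 2 ≤ ‖fL g z‖ ^ 2 :=
      pow_le_pow_left₀ (norm_nonneg _) (hKL z) 2
    rw [Real.norm_of_nonneg (by linarith)]
    have e : (‖fL g z‖ ^ 2 - ‖fK g z‖ ^ 2) * (‖fL g z‖⁻¹ * ‖fL g z‖⁻¹) =
        (‖fL g z‖ ^ 2 - ‖fK g z‖ ^ 2) / ‖fL g z‖ ^ 2 := by
      rw [div_eq_mul_inv]
      congr 1
      rw [pow_two, mul_inv]
    rw [e, div_le_one (by positivity)]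
    have := sq_nonneg ‖fK g z‖
    linarith
  · rw [hpbg z, norm_neg, norm_mul, norm_inv]
    have hLp : 0 < ‖fL g z‖ := norm_pos_iff.2 (hL0 z)
    rw [← div_eq_mul_inv, div_le_one hLp]
    exact hKL z
  · have h3 : Tendsto (fun z => z * pot (fun w => b w * (g w : ℂ)) z) (cocompact ℂ)
        (𝓝 (∫ w, b w * (g w : ℂ))) := pot_tendsto (hb.mul hgc) hgs.mul_left
    have h4 : Tendsto (fun z => z * pot φ z) (cocompact ℂ) (𝓝 (∫ w, φ w)) := pot_tendsto hφ cφ
    have h5 : Tendsto (fun z => fL g z) (cocompact ℂ) (𝓝 1) := by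
      have h6 : Tendsto (fun z => 1 - pot (fun w => (g w : ℂ) * conj (fK g w)) z) (cocompact ℂ)
          (𝓝 (1 - 0)) := (pot_zero (hgc.mul hcK) hgs.mul_right).const_sub 1
      rw [sub_zero] at h6
      refine h6.congr fun z => ?_
      exact (eL z).symm
    have h6 : Tendsto (fun z => z * pot φ z * (fL g z)⁻¹) (cocompact ℂ) (𝓝 ((∫ w, φ w) * 1⁻¹)) :=
      h4.mul (h5.inv₀ one_ne_zero)
    rw [inv_one, mul_one] at h6
    have h7 : (fun z => z * pot φ z * (fL g z)⁻¹) =
        fun z => z * pot (fun w => b w * (g w : ℂ)) z := by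
      funext z
      rw [hpbg z, hpφ z]
      ring
    rw [h7] at h6
    have h8 := tendsto_nhds_unique h3 h6
    rw [h8]
    exact hGam

end Pool.Agent.Q63.TC
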